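import Pool.Agent.Q18.KZ.S1
import Pool.Agent.Helper112.Arith

/-!
# Project KZ (helper18), job MO: moments of `∑ t ^ (i a k)`
-/

set_option autoImplicit false

namespace Pool.Agent.Q182.KZ

open Finset
open Pool.Agent.Q18.KZ
open Pool.Agent.H376R2.MR (FK)

/-- the character -/
noncomputable def ch (k : ℤ) (x : ℝ) : ℂ := Complex.exp (((k : ℝ) * x : ℝ) * Complex.I)

lemma ch_zero (k : ℤ) : ch k 0 = 1 := by
  unfold ch
  simp

lemma ch_add (k : ℤ) (x y : ℝ) : ch k (x + y) = ch k x * ch k y := by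
  unfold ch
  rw [← Complex.exp_add]
  congr 1
  push_cast
  ring

lemma ch_sum {ι : Type} (s : Finset ι) (k : ℤ) (x : ι → ℝ) :
    ch k (∑ i ∈ s, x i) = ∏ i ∈ s, ch k (x i) := by
  classical
  induction s using Finset.induction_on with
  | empty => simp [ch_zero]
  | insert i s hi ih => rw [sum_insert hi, prod_insert hi, ch_add, ih]

lemma ch_prod {m : ℕ} (k : ℤ) (a : ℝ) (f : Fin m → ℕ) (hf : ∀ i, f i ≠ 0) :
    ∏ i, ch k (a * Real.log (f i)) = ch k (a * Real.log ((∏ i, f i : ℕ) : ℝ)) := by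
  rw [← ch_sum, ← mul_sum, Nat.cast_prod, Real.log_prod]
  intro i _
  exact_mod_cast hf i

section data

variable (m : ℕ) (W : Finset ℕ)

/-- tuples -/
def PP : Finset (Fin m → ℕ) := Fintype.piFinset fun _ => W

/-- products of tuples -/
def UU : Finset ℕ := (PP m W).image fun f => ∏ i, f i

/-- multiplicity -/
def mu (u : ℕ) : ℕ := ((PP m W).filter fun f => ∏ i, f i = u).card

lemma pow_eq (hW : ∀ t ∈ W, t ≠ 0) (k : ℤ) (a : ℝ) :
    (∑ t ∈ W, ch k (a * Real.log t)) ^ m = ∑ u ∈ UU m W, (mu m W u : ℂ) * ch k (a * Real.log u) := by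
  rw [sum_pow']
  have h1 : ∀ f ∈ Fintype.piFinset (fun _ : Fin m => W), ∏ i, ch k (a * Real.log (f i)) =
      ch k (a * Real.log ((∏ i, f i : ℕ) : ℝ)) := by
    intro f hf
    rw [Fintype.mem_piFinset] at hf
    exact ch_prod k a f fun i => hW _ (hf i)
  rw [sum_congr rfl h1]
  have h2 := sum_comp (s := PP m W) (fun u : ℕ => ch k (a * Real.log (u : ℝ)))
    (fun f : Fin m → ℕ => ∏ i, f i)
  unfold UU mu
  unfold PP at h2 ⊢
  rw [h2]
  refine sum_congr rfl fun u _ => ?_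
  rw [nsmul_eq_mul]

lemma sum_mu : ∑ u ∈ UU m W, mu m W u = W.card ^ m := by
  have h := card_eq_sum_card_image (fun f : Fin m → ℕ => ∏ i, f i) (PP m W)
  unfold UU mu
  rw [← h]
  unfold PP
  rw [Fintype.card_piFinset_const]

lemma mu_le (_hW : ∀ t ∈ W, t ≠ 0) (u : ℕ) (hu : u ≠ 0) : mu m W u ≤ u.divisors.card ^ m := by
  have h : (PP m W).filter (fun f => ∏ i, f i = u) ⊆ Fintype.piFinset (fun _ : Fin m => u.divisors) := by
    intro f hf
    rw [mem_filter] at hf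
    rw [Fintype.mem_piFinset]
    intro i
    rw [Nat.mem_divisors]
    refine ⟨?_, hu⟩
    rw [← hf.2]
    exact dvd_prod_of_mem _ (mem_univ i)
  have h2 := card_le_card h
  rw [Fintype.card_piFinset_const] at h2
  exact h2

lemma mem_UU {T : ℕ} (hW : W ⊆ Ioc T (2 * T)) {u : ℕ} (hu : u ∈ UU m W) :
    T ^ m ≤ u ∧ u ≤ (2 * T) ^ m := by
  unfold UU PP at hu
  rw [mem_image] at hu
  obtain ⟨f, hf, rfl⟩ := hu
  rw [Fintype.mem_piFinset] at hf
  have h1 : ∀ i, T ≤ f i ∧ f i ≤ 2 * T := fun i => by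
    have := mem_Ioc.1 (hW (hf i))
    exact ⟨this.1.le, this.2⟩
  constructor
  · calc T ^ m = ∏ _i : Fin m, T := by simp
      _ ≤ ∏ i, f i := prod_le_prod' fun i _ => (h1 i).1
  · calc ∏ i, f i ≤ ∏ _i : Fin m, (2 * T) := prod_le_prod' fun i _ => (h1 i).2
      _ = (2 * T) ^ m := by simp

end data

lemma sep {u u' : ℕ} {a : ℕ} {M : ℝ} (ha : 1 ≤ a) (hu : 1 ≤ u) (h : u < u') (hM : (u' : ℝ) ≤ M) :
    1 / M ≤ a * Real.log u' - a * Real.log u := by
  have hu0 : (0 : ℝ) < u := by exact_mod_cast hu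
  have hu'0 : (0 : ℝ) < u' := by exact_mod_cast (by omega : 0 < u')
  have h1 := Real.one_sub_inv_le_log_of_pos (x := (u' : ℝ) / u) (by positivity)
  rw [Real.log_div hu'0.ne' hu0.ne', inv_div] at h1
  have h2 : 1 / M ≤ 1 - (u : ℝ) / u' := by
    have h3 : (u : ℝ) + 1 ≤ u' := by exact_mod_cast h
    have h4 : 1 / M ≤ 1 / (u' : ℝ) := one_div_le_one_div_of_le hu'0 hM
    refine h4.trans ?_
    rw [one_sub_div hu'0.ne']
    gcongr
    linarith
  have h5 : (1 : ℝ) ≤ a := by exact_mod_cast ha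
  have h6 : 0 ≤ Real.log u' - Real.log u := by
    have : 0 ≤ 1 / M := by
      have : 0 < M := hu'0.trans_le hM
      positivity
    linarith
  nlinarith

theorem t_MO (hL : S_LSW) : S_MO := by
  classical
  intro m a ε hm ha hε
  obtain ⟨C1, hC1, hL⟩ := hL
  have hm0 : (0 : ℝ) < m := by exact_mod_cast hm
  have ha0 : (1 : ℝ) ≤ a := by exact_mod_cast ha
  obtain ⟨D, hD0, hD⟩ := Pool.Agent.Helper112.divisor_bound (ε / (m * m)) (by positivity)
  obtain ⟨D', hD'⟩ : ∃ D' : ℝ, D' = max D 1 := ⟨_, rfl⟩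
  have hD'1 : 1 ≤ D' := by rw [hD']; exact le_max_right _ _
  have hDD' : D ≤ D' := by rw [hD']; exact le_max_left _ _
  have hA : (1 : ℝ) ≤ (a : ℝ) * m + 1 := by nlinarith
  have h2m : (1 : ℝ) ≤ 2 ^ m := one_le_pow₀ (by norm_num)
  have h2ε : (1 : ℝ) ≤ (2 : ℝ) ^ ε := Real.one_le_rpow (by norm_num) hε.le
  have hDm : (1 : ℝ) ≤ D' ^ m := one_le_pow₀ hD'1
  refine ⟨((a : ℝ) * m + 1) * (C1 * 2 ^ m) * (D' ^ m * 2 ^ ε), ?_, ?_⟩
  · have h1 : (1 : ℝ) ≤ C1 * 2 ^ m := one_le_mul_of_one_le_of_one_le hC1 h2m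
    have h2 : (1 : ℝ) ≤ D' ^ m * 2 ^ ε := one_le_mul_of_one_le_of_one_le hDm h2ε
    exact one_le_mul_of_one_le_of_one_le (one_le_mul_of_one_le_of_one_le hA h1) h2
  intro K T W hK hT hW
  have hT0 : (1 : ℝ) ≤ T := by exact_mod_cast hT
  have hK0 : (1 : ℝ) ≤ K := by exact_mod_cast hK
  have hW0 : ∀ t ∈ W, t ≠ 0 := fun t ht => by
    have := (mem_Ioc.1 (hW ht)).1
    omega
  have hUm : ∀ u ∈ UU m W, (T : ℝ) ^ m ≤ u ∧ (u : ℝ) ≤ (2 * T) ^ m ∧ 1 ≤ u := by
    intro u hu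
    have h1 := mem_UU m W hW hu
    refine ⟨by exact_mod_cast h1.1, by exact_mod_cast h1.2, ?_⟩
    exact (Nat.one_le_pow _ _ hT).trans h1.1
  -- the windows
  obtain ⟨θ, hθ⟩ : ∃ θ : ℕ → ℝ, θ = fun u : ℕ => (a : ℝ) * Real.log (u : ℝ) := ⟨_, rfl⟩
  obtain ⟨J, hJ⟩ : ∃ J : ℕ → ℕ, J = fun u : ℕ =>
      ⌊(a : ℝ) * (Real.log (u : ℝ) - m * Real.log (T : ℝ))⌋₊ := ⟨_, rfl⟩
  have hlog : ∀ u ∈ UU m W, 0 ≤ Real.log u - m * Real.log T ∧
      Real.log u - m * Real.log T ≤ m := by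
    intro u hu
    obtain ⟨h1, h2, h3⟩ := hUm u hu
    have hu0 : (0 : ℝ) < u := by exact_mod_cast h3
    constructor
    · have := Real.log_le_log (by positivity) h1
      rw [Real.log_pow] at this
      linarith
    · have := Real.log_le_log hu0 h2
      rw [Real.log_pow, Real.log_mul (by norm_num) (by positivity)] at this
      have h4 : Real.log 2 ≤ 1 := by
        have := Real.log_two_lt_d9
        linarith
      nlinarith
  have hJr : ∀ u ∈ UU m W, J u ∈ range (a * m + 1) := by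
    intro u hu
    rw [mem_range, hJ]
    have h1 := hlog u hu
    have h2 : (a : ℝ) * (Real.log u - m * Real.log T) ≤ ((a * m : ℕ) : ℝ) := by
      push_cast
      exact mul_le_mul_of_nonneg_left h1.2 (by linarith)
    exact Nat.lt_succ_of_le (Nat.floor_le_of_le h2)
  have hJw : ∀ j : ℕ, ∀ u ∈ (UU m W).filter (fun u => J u = j),
      (a : ℝ) * (m * Real.log T) + j ≤ θ u ∧ θ u ≤ (a : ℝ) * (m * Real.log T) + j + 2 := by
    intro j u hu
    rw [mem_filter] at hu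
    have h1 := hlog u hu.1
    have h2 : (J u : ℝ) ≤ (a : ℝ) * (Real.log u - m * Real.log T) := by
      rw [hJ]
      exact Nat.floor_le (mul_nonneg (by linarith) h1.1)
    have h3 : (a : ℝ) * (Real.log u - m * Real.log T) < J u + 1 := by
      rw [hJ]
      exact Nat.lt_floor_add_one _
    rw [hu.2] at h2 h3
    rw [hθ]
    constructor
    · show _ ≤ (a : ℝ) * Real.log u
      linarith
    · show (a : ℝ) * Real.log u ≤ _
      linarith
  have hM0 : (1 : ℝ) ≤ (2 * (T : ℝ)) ^ m := one_le_pow₀ (by linarith)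
  have hsep : ∀ u ∈ UU m W, ∀ u' ∈ UU m W, u ≠ u' →
      1 / (2 * (T : ℝ)) ^ m ≤ |θ u - θ u'| := by
    intro u hu u' hu' hne
    obtain ⟨h1, h2, h3⟩ := hUm u hu
    obtain ⟨h1', h2', h3'⟩ := hUm u' hu'
    rw [hθ]
    rcases lt_or_gt_of_ne hne with h | h
    · rw [abs_sub_comm]
      exact (sep ha h3 h h2').trans (le_abs_self _)
    · exact (sep ha h3' h h2).trans (le_abs_self _)
  -- one window
  have hwin : ∀ j : ℕ, ∑ k ∈ FK K, ‖∑ u ∈ (UU m W).filter (fun u => J u = j),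
      (mu m W u : ℂ) * ch k (θ u)‖ ^ 2 ≤ C1 * (K + (2 * (T : ℝ)) ^ m) *
        ∑ u ∈ (UU m W).filter (fun u => J u = j), (mu m W u : ℝ) ^ 2 := by
    intro j
    have h1 := hL K (1 / (2 * (T : ℝ)) ^ m) ((a : ℝ) * (m * Real.log T) + j)
      ((UU m W).filter (fun u => J u = j)) θ (fun u => (mu m W u : ℂ)) hK (by positivity)
      (by rw [div_le_one (by positivity)]; exact hM0) (hJw j)
      (fun u hu u' hu' hne => hsep u (mem_filter.1 hu).1 u' (mem_filter.1 hu').1 hne)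
    rw [one_div_one_div] at h1
    have h2 : ∀ u : ℕ, ‖(mu m W u : ℂ)‖ ^ 2 = (mu m W u : ℝ) ^ 2 := fun u => by
      rw [Complex.norm_natCast]
    simp only [h2] at h1
    exact h1
  -- the pointwise identity
  have hpt : ∀ k : ℤ, ‖∑ t ∈ W, Complex.exp (((k : ℝ) * (a * Real.log t) : ℝ) * Complex.I)‖ ^ (2 * m) ≤
      ((a : ℝ) * m + 1) * ∑ j ∈ range (a * m + 1), ‖∑ u ∈ (UU m W).filter (fun u => J u = j),
      (mu m W u : ℂ) * ch k (θ u)‖ ^ 2 := by
    intro k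
    have h1 : ‖∑ t ∈ W, Complex.exp (((k : ℝ) * (a * Real.log t) : ℝ) * Complex.I)‖ ^ (2 * m) =
        ‖∑ u ∈ UU m W, (mu m W u : ℂ) * ch k (θ u)‖ ^ 2 := by
      have h2 := pow_eq m W hW0 k a
      rw [hθ]
      rw [← h2, norm_pow, ← pow_mul, mul_comm m 2]
      rfl
    rw [h1, ← sum_fiberwise_of_maps_to hJr]
    refine (pow_le_pow_left₀ (norm_nonneg _) (norm_sum_le _ _) 2).trans ?_
    refine (sq_sum_le_card_mul_sum_sq).trans (le_of_eq ?_)
    rw [card_range]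
    push_cast
    ring
  -- the number of representations
  have hmu : ∀ u ∈ UU m W, (mu m W u : ℝ) ≤ D' ^ m * 2 ^ ε * (T : ℝ) ^ ε := by
    intro u hu
    obtain ⟨h1, h2, h3⟩ := hUm u hu
    have hu0 : (0 : ℝ) < u := by exact_mod_cast h3
    have h4 : (mu m W u : ℝ) ≤ (u.divisors.card : ℝ) ^ m := by
      exact_mod_cast mu_le m W hW0 u (by omega)
    have h5 := hD u h3
    calc (mu m W u : ℝ) ≤ (u.divisors.card : ℝ) ^ m := h4
      _ ≤ (D' * (u : ℝ) ^ (ε / (m * m))) ^ m := by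
          refine pow_le_pow_left₀ (Nat.cast_nonneg _) (h5.trans ?_) m
          exact mul_le_mul_of_nonneg_right hDD' (by positivity)
      _ = D' ^ m * (u : ℝ) ^ (ε / m) := by
          rw [mul_pow, ← Real.rpow_natCast ((u : ℝ) ^ (ε / (m * m))) m, ← Real.rpow_mul hu0.le]
          congr 2
          field_simp
      _ ≤ D' ^ m * (((2 * (T : ℝ)) ^ m) ^ (ε / m)) := by
          refine mul_le_mul_of_nonneg_left ?_ (by positivity)
          exact Real.rpow_le_rpow hu0.le h2 (by positivity)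
      _ = D' ^ m * 2 ^ ε * (T : ℝ) ^ ε := by
          rw [← Real.rpow_natCast (2 * (T : ℝ)) m, ← Real.rpow_mul (by positivity)]
          have e : (m : ℝ) * (ε / m) = ε := by field_simp
          rw [e, Real.mul_rpow (by norm_num) (by positivity)]
          ring
  have hWc : (W.card : ℝ) ≤ T := by
    have h1 := card_le_card hW
    rw [Nat.card_Ioc] at h1
    have h2 : W.card ≤ T := by omega
    exact_mod_cast h2
  have hsum : ∑ u ∈ UU m W, (mu m W u : ℝ) ^ 2 ≤ D' ^ m * 2 ^ ε * (T : ℝ) ^ ε * (T : ℝ) ^ m := by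
    calc ∑ u ∈ UU m W, (mu m W u : ℝ) ^ 2
        ≤ ∑ u ∈ UU m W, D' ^ m * 2 ^ ε * (T : ℝ) ^ ε * (mu m W u : ℝ) := by
          refine sum_le_sum fun u hu => ?_
          rw [sq]
          exact mul_le_mul_of_nonneg_right (hmu u hu) (Nat.cast_nonneg _)
      _ = D' ^ m * 2 ^ ε * (T : ℝ) ^ ε * (W.card : ℝ) ^ m := by
          rw [← mul_sum]
          congr 1
          exact_mod_cast sum_mu m W
      _ ≤ _ := by
          refine mul_le_mul_of_nonneg_left ?_ (by positivity)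
          exact pow_le_pow_left₀ (Nat.cast_nonneg _) hWc m
  -- the end
  have hK2 : (K : ℝ) + (2 * (T : ℝ)) ^ m ≤ 2 ^ m * (K + (T : ℝ) ^ m) := by
    rw [mul_pow]
    nlinarith [mul_le_mul_of_nonneg_right h2m (by linarith : (0 : ℝ) ≤ K)]
  calc ∑ k ∈ FK K, ‖∑ t ∈ W, Complex.exp (((k : ℝ) * (a * Real.log t) : ℝ) * Complex.I)‖ ^ (2 * m)
      ≤ ∑ k ∈ FK K, ((a : ℝ) * m + 1) * ∑ j ∈ range (a * m + 1),
        ‖∑ u ∈ (UU m W).filter (fun u => J u = j), (mu m W u : ℂ) * ch k (θ u)‖ ^ 2 :=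
        sum_le_sum fun k _ => hpt k
    _ = ((a : ℝ) * m + 1) * ∑ j ∈ range (a * m + 1), ∑ k ∈ FK K,
        ‖∑ u ∈ (UU m W).filter (fun u => J u = j), (mu m W u : ℂ) * ch k (θ u)‖ ^ 2 := by
        rw [← mul_sum, sum_comm]
    _ ≤ ((a : ℝ) * m + 1) * ∑ j ∈ range (a * m + 1), C1 * (K + (2 * (T : ℝ)) ^ m) *
        ∑ u ∈ (UU m W).filter (fun u => J u = j), (mu m W u : ℝ) ^ 2 :=
        mul_le_mul_of_nonneg_left (sum_le_sum fun j _ => hwin j) (by linarith)
    _ = ((a : ℝ) * m + 1) * (C1 * (K + (2 * (T : ℝ)) ^ m) *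
        ∑ u ∈ UU m W, (mu m W u : ℝ) ^ 2) := by
        rw [← mul_sum, sum_fiberwise_of_maps_to hJr]
    _ ≤ ((a : ℝ) * m + 1) * (C1 * (2 ^ m * (K + (T : ℝ) ^ m)) *
        (D' ^ m * 2 ^ ε * (T : ℝ) ^ ε * (T : ℝ) ^ m)) := by
        refine mul_le_mul_of_nonneg_left ?_ (by linarith)
        refine mul_le_mul ?_ hsum (sum_nonneg fun _ _ => sq_nonneg _) (by positivity)
        exact mul_le_mul_of_nonneg_left hK2 (by linarith)
    _ = _ := by ring

end Pool.Agent.Q182.KZ
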